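import Pool.Agent.LeoD.MixStmts
import Pool.Agent.LeoC.CorStmts
import Pool.Agent.Helper59_LeoC.Sig
import Pool.Agent.Helper59_LeoD.Par
import Pool.Agent.Helper90_LeoD.Qua

/-!
# Final form of the statements of squad LEOD
-/

set_option autoImplicit false

open NumberField NumberField.InfinitePlace NumberField.mixedEmbedding IsDedekindDomain Module Filter
open Pool.Agent.Helper85_Leo Pool.Agent.LeoK Pool.Agent.LeoC

open scoped Classical

namespace Pool.Agent.LeoD.H49

/-- The signature of a quadratic extension is determined by the ramification at the real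
places. -/
theorem quadN_of_ram (hqua : QuaStmt) (k : Type) [Field k] [NumberField k]
    (N : Set {w : InfinitePlace k // IsReal w}) (K : IntermediateField k (AlgebraicClosure k))
    [NumberField K] (h2 : finrank k K = 2)
    (hram : ∀ w : {w : InfinitePlace k // IsReal w}, w.1.IsUnramifiedIn K ↔ w ∉ N) :
    QuadN N K := by
  obtain ⟨a, ha, hK⟩ := (hqua k).1 K h2
  have hr : ∃ r : K, r ^ 2 = algebraMap k K a := by
    have h := ((hqua k).2.1 a ha).2.2
    rw [← hK] at h
    exact h
  obtain ⟨r, hr⟩ := hr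
  have h3 : (3 : k) * (a / 3) = a := by field_simp
  have ha' : ∀ x : k, x ^ 2 ≠ 3 * (a / 3) := by rwa [h3]
  have hr' : r ^ 2 = algebraMap k K (3 * (a / 3)) := by rw [h3, hr]
  have hm : a / 3 ≠ 0 := by
    intro h0
    apply ha' 0
    rw [h0]
    ring
  have h4 := Pool.Agent.LeoC.H59.quadN h2 hr' ha' (Pool.Agent.LeoD.H59.exists_sgn (a / 3) hm)
  have h5 : N = {w | (mixedEmbedding k (a / 3)).1 w < 0} := by
    ext w
    have h6 := hram w
    have h7 := h4.ram w
    tauto
  rw [h5]
  exact h4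

/-- The quadratic extensions of `k` in an algebraic closure, ramified exactly at the real places of
`N`, of absolute discriminant at most `X`. -/
theorem qx_eq (hqua : QuaStmt) (k : Type) [Field k] [NumberField k]
    (N : Set {w : InfinitePlace k // IsReal w}) (X : ℝ) :
    {K : IntermediateField k (AlgebraicClosure k) | ∃ _ : NumberField K, finrank k K = 2 ∧
      (∀ w : {w : InfinitePlace k // IsReal w}, w.1.IsUnramifiedIn K ↔ w ∉ N) ∧
      ((discr K).natAbs : ℝ) ≤ X} = Qx k N X := by
  ext K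
  constructor
  · rintro ⟨h1, h2, h3, h4⟩
    exact ⟨h1, quadN_of_ram hqua k N K h2 h3, h4⟩
  · rintro ⟨h1, h2, h4⟩
    exact ⟨h1, h2.quad, h2.ram, h4⟩

theorem q4x_eq (X : ℝ) :
    {K : IntermediateField ℚ (AlgebraicClosure ℚ) | ∃ _ : NumberField K, finrank ℚ K = 4 ∧
      nrComplexPlaces K = 0 ∧ ((discr K).natAbs : ℝ) ≤ X ∧
      ∃ k : IntermediateField ℚ (AlgebraicClosure ℚ), k ≤ K ∧ finrank ℚ k = 2} = Q4x X := by
  ext K
  constructor
  · rintro ⟨h1, h2, h3, h4⟩
    exact ⟨h1, h2, nrComplexPlaces_eq_zero_iff.1 h3, h4⟩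
  · rintro ⟨h1, h2, h3, h4⟩
    exact ⟨h1, h2, nrComplexPlaces_eq_zero_iff.2 h3, h4⟩

end Pool.Agent.LeoD.H49
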